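import Mathlib

set_option autoImplicit false

/-!
Two-colourings of tuples of natural numbers in which increasing a suitable entry by `k` changes
the colour.
-/

namespace HJL

/-- There is a two-colouring of the tuples of natural numbers such that for every tuple and every
`k` that is not a multiple of `D`, increasing one of the first `s` entries by `k` changes the
colour. -/
def Good (s D : ℕ) : Prop :=
  ∃ F : (ℕ → ℕ) → Bool, ∀ (c : ℕ → ℕ) (k : ℕ), ¬ D ∣ k →
    ∃ j < s, F (Function.update c j (c j + k)) ≠ F c

lemma good_zero : Good 0 1 := ⟨fun _ => true, fun _ k hk => absurd (one_dvd k) hk⟩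

lemma good_two : Good 1 2 := by
  refine ⟨fun c => decide (c 0 % 2 = 1), fun c k hk => ⟨0, by norm_num, ?_⟩⟩
  simp only [Function.update_self]
  intro h
  rw [decide_eq_decide] at h
  omega

/-- Composition: the multiples of `D` are handled by a second group of entries. -/
lemma good_mul {s D s' D' : ℕ} (h : Good s D) (h' : Good s' D') (hD : 0 < D) :
    Good (s + s') (D * D') := by
  obtain ⟨f, hf⟩ := h
  obtain ⟨g, hg⟩ := h'
  refine ⟨fun c => xor (f fun j => if j < s then c j else 0) (g fun j => c (j + s) / D),
    fun c k hk => ?_⟩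
  by_cases hDk : D ∣ k
  · obtain ⟨m, rfl⟩ := hDk
    have hm : ¬ D' ∣ m := fun h => hk (Nat.mul_dvd_mul_left D h)
    obtain ⟨j, hj, hne⟩ := hg (fun j => c (j + s) / D) m hm
    refine ⟨j + s, by omega, ?_⟩
    have h1 : (fun i => if i < s then Function.update c (j + s) (c (j + s) + D * m) i else 0) =
        fun i => if i < s then c i else 0 := by
      funext i
      split_ifs with hi
      · rw [Function.update_of_ne (by omega)]
      · rfl
    have h2 : (fun i => Function.update c (j + s) (c (j + s) + D * m) (i + s) / D) =
        Function.update (fun i => c (i + s) / D) j (c (j + s) / D + m) := by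
      funext i
      by_cases hij : i = j
      · subst hij
        rw [Function.update_self, Function.update_self, Nat.add_mul_div_left _ _ hD]
      · rw [Function.update_of_ne (by omega), Function.update_of_ne hij]
    show xor (f fun i => if i < s then Function.update c (j + s) (c (j + s) + D * m) i else 0)
      (g fun i => Function.update c (j + s) (c (j + s) + D * m) (i + s) / D) ≠ _
    rw [h1, h2]
    intro h
    exact hne (by simpa using h)
  · obtain ⟨j, hj, hne⟩ := hf (fun j => if j < s then c j else 0) k hDk
    refine ⟨j, by omega, ?_⟩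
    have h1 : (fun i => if i < s then Function.update c j (c j + k) i else 0) =
        Function.update (fun i => if i < s then c i else 0) j
          ((fun i => if i < s then c i else 0) j + k) := by
      funext i
      by_cases hij : i = j
      · subst hij
        simp [hj]
      · rw [Function.update_of_ne hij, Function.update_of_ne hij]
    have h2 : (fun i => Function.update c j (c j + k) (i + s) / D) = fun i => c (i + s) / D := by
      funext i
      rw [Function.update_of_ne (by omega)]
    show xor (f fun i => if i < s then Function.update c j (c j + k) i else 0)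
      (g fun i => Function.update c j (c j + k) (i + s) / D) ≠ _
    rw [h1, h2]
    intro h
    exact hne (by simpa using h)

lemma good_pow {s D : ℕ} (h : Good s D) (hD : 0 < D) (a : ℕ) : Good (s * a) (D ^ a) := by
  induction a with
  | zero => simpa using good_zero
  | succ a ih =>
    have := good_mul ih h (Nat.pow_pos hD)
    rwa [← Nat.mul_succ, ← pow_succ] at this

/-- The test of a mask: `w` is the list of weights. -/
def chk (N P : ℕ) (w : List ℕ) (k : ℕ) : Bool :=
  (w.foldl (fun X a => X ||| (((N + N * 2 ^ P) >>> ((a * k) % P)) ^^^ (N + N * 2 ^ P))) 0) %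
    2 ^ P == 2 ^ P - 1

/-- All tests. -/
def chkAll (N P : ℕ) (w : List ℕ) : Bool :=
  (List.range P).all fun k => k == 0 || chk N P w k

lemma testBit_foldl (M : ℕ) (g : ℕ → ℕ) (w : List ℕ) (X B : ℕ)
    (h : (w.foldl (fun X a => X ||| ((M >>> g a) ^^^ M)) X).testBit B = true) :
    X.testBit B = true ∨ ∃ j, ∃ hj : j < w.length, M.testBit (g w[j] + B) ≠ M.testBit B := by
  induction w generalizing X with
  | nil => exact Or.inl h
  | cons a w ih =>
    rw [List.foldl_cons] at h
    rcases ih _ h with h1 | ⟨j, hj, h1⟩
    · rw [Nat.testBit_lor, Bool.or_eq_true] at h1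
      rcases h1 with h1 | h1
      · exact Or.inl h1
      · refine Or.inr ⟨0, by simp, ?_⟩
        rw [Nat.testBit_xor, Nat.testBit_shiftRight] at h1
        simp only [List.getElem_cons_zero]
        intro h2
        rw [h2] at h1
        simp at h1
    · exact Or.inr ⟨j + 1, by simpa using hj, by simpa using h1⟩

lemma testBit_double {N P B : ℕ} (hN : N < 2 ^ P) (hB : B < 2 * P) :
    (N + N * 2 ^ P).testBit B = N.testBit (B % P) := by
  rcases lt_or_ge B P with h | h
  · rw [Nat.mod_eq_of_lt h, mul_comm N, add_comm, Nat.testBit_two_pow_mul_add _ hN, if_pos h]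
  · rw [mul_comm N, add_comm, Nat.testBit_two_pow_mul_add _ hN, if_neg (by omega),
      Nat.mod_eq_sub_mod h, Nat.mod_eq_of_lt (by omega)]

lemma good_of_chk {N P : ℕ} {w : List ℕ} (hP : 0 < P) (hN : N < 2 ^ P)
    (h : chkAll N P w = true) : Good w.length P := by
  have key : ∀ k B : ℕ, ¬ P ∣ k → ∃ j, ∃ hj : j < w.length,
      N.testBit ((B + w[j] * k) % P) ≠ N.testBit (B % P) := by
    intro k B hk
    have hk0 : k % P ≠ 0 := fun h => hk (Nat.dvd_of_mod_eq_zero h)
    have hkP : k % P < P := Nat.mod_lt _ hP
    have h1 : chk N P w (k % P) = true := by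
      have := List.all_eq_true.1 h (k % P) (List.mem_range.2 hkP)
      simpa [hk0] using this
    have h2 := of_decide_eq_true (by simpa [chk, beq_iff_eq] using h1 :
      decide ((w.foldl (fun X a => X ||| (((N + N * 2 ^ P) >>> ((a * (k % P)) % P)) ^^^
        (N + N * 2 ^ P))) 0) % 2 ^ P = 2 ^ P - 1) = true)
    have hBP : B % P < P := Nat.mod_lt _ hP
    have h3 : (w.foldl (fun X a => X ||| (((N + N * 2 ^ P) >>> ((a * (k % P)) % P)) ^^^
        (N + N * 2 ^ P))) 0).testBit (B % P) = true := by
      have h4 := congrArg (fun x => Nat.testBit x (B % P)) h2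
      simp only [Nat.testBit_mod_two_pow, Nat.testBit_two_pow_sub_one, hBP, decide_true,
        Bool.true_and] at h4
      exact h4
    rcases testBit_foldl (N + N * 2 ^ P) (fun a => (a * (k % P)) % P) w 0 (B % P) h3 with h5 | h5
    · simp at h5
    · obtain ⟨j, hj, h5⟩ := h5
      refine ⟨j, hj, ?_⟩
      have h6 : (w[j] * (k % P)) % P < P := Nat.mod_lt _ hP
      rw [testBit_double hN (by omega), testBit_double hN (by omega), Nat.mod_mod] at h5
      have h7 : ((w[j] * (k % P)) % P + B % P) % P = (B + w[j] * k) % P := by
        rw [← Nat.add_mod, Nat.add_comm, Nat.add_mod, Nat.mul_mod, Nat.mod_mod, ← Nat.mul_mod,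
          ← Nat.add_mod]
      rwa [h7] at h5
  refine ⟨fun c => N.testBit ((∑ j : Fin w.length, w[j] * c j) % P), fun c k hk => ?_⟩
  obtain ⟨j, hj, hne⟩ := key k (∑ j : Fin w.length, w[j] * c j) hk
  refine ⟨j, hj, ?_⟩
  have hs : (∑ i : Fin w.length, w[i] * Function.update c j (c j + k) (i : ℕ)) =
      (∑ i : Fin w.length, w[i] * c (i : ℕ)) + w[j] * k := by
    rw [← Finset.add_sum_erase _ _ (Finset.mem_univ (⟨j, hj⟩ : Fin w.length)),
      ← Finset.add_sum_erase (a := (⟨j, hj⟩ : Fin w.length)) _
        (fun i : Fin w.length => w[i] * c (i : ℕ)) (Finset.mem_univ _)]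
    have : ∀ i ∈ Finset.univ.erase (⟨j, hj⟩ : Fin w.length),
        w[i] * Function.update c j (c j + k) (i : ℕ) = w[i] * c (i : ℕ) := by
      intro i hi
      rw [Function.update_of_ne]
      intro h
      exact (Finset.mem_erase.1 hi).1 (Fin.ext h)
    rw [Finset.sum_congr rfl this]
    simp only [Function.update_self, Fin.getElem_fin]
    ring
  show N.testBit ((∑ i : Fin w.length, w[i] * Function.update c j (c j + k) (i : ℕ)) % P) ≠ _
  rw [hs]
  exact hne

end HJL
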