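import Mathlib
import Pool.Agent.HJL.Good
import Pool.Agent.TTT.Defs

set_option autoImplicit false

/-!
From colourings of tuples of natural numbers to proper halving colourings of `[n]^d`.
-/

namespace HJL

open Finset Pool.Agent.TTT

variable {n d : ℕ}

/-- The class of a value: the smaller one of `v` and `n - 1 - v`. -/
def cls (v : Fin n) : ℕ := min v.1 (n - 1 - v.1)

/-- The number of coordinates in the class `u`. -/
def cnt (x : Fin d → Fin n) (u : ℕ) : ℕ := (univ.filter fun i => cls (x i) = u).card

/-- The number of coordinates above the centre. -/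
def high (x : Fin d → Fin n) : ℕ := (univ.filter fun i => n - n / 2 ≤ (x i).1).card

/-- The colouring. -/
def col (G : (ℕ → ℕ) → Bool) (x : Fin d → Fin n) : Bool :=
  xor (decide (high x % 2 = 1)) (G fun j => cnt x (j + 1) / 2)

lemma cls_rev (v : Fin n) : cls (Fin.rev v) = cls v := by
  have := v.2
  unfold cls
  rw [Fin.val_rev]
  omega

section line

variable {x : Fin n → Fin d → Fin n}

/-- Splitting the number of coordinates with a property into passive and active ones. -/
lemma card_split (p : Fin n → Prop) [DecidablePred p] (A : Finset (Fin d)) (y : Fin d → Fin n) :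
    (univ.filter fun i => p (y i)).card =
      (Aᶜ.filter fun i => p (y i)).card + (A.filter fun i => p (y i)).card := by
  rw [← card_union_of_disjoint, ← filter_union]
  · congr 2
    ext i
    simp only [mem_univ, mem_union, mem_compl, true_iff]
    tauto
  · rw [disjoint_left]
    intro i hi hi'
    simp only [mem_filter, mem_compl] at hi hi'
    exact hi.1 hi'.1

end line

/-- The key property: a geometric line is not monochromatic. -/
lemma col_line {s D : ℕ} {G : (ℕ → ℕ) → Bool}
    (hG : ∀ (c : ℕ → ℕ) (k : ℕ), ¬ D ∣ k → ∃ j < s, G (Function.update c j (c j + k)) ≠ G c)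
    (hs : s < n / 2) (hd : d < 2 * D) {l : Finset (Fin d → Fin n)} (hl : IsLine n d l) :
    ∃ y ∈ l, ∃ z ∈ l, col G y ≠ col G z := by
  obtain ⟨x, hx, ⟨i₀, hi₀⟩, rfl⟩ := hl
  have hn : 2 ≤ n := by omega
  classical
  -- active coordinates
  set A : Finset (Fin d) := univ.filter fun i => ¬ ∃ a, ∀ t, x t i = a with hA
  have hpas : ∀ i, i ∉ A → ∀ t t', x t i = x t' i := by
    intro i hi t t'
    simp only [hA, mem_filter, mem_univ, true_and, not_not] at hi
    obtain ⟨a, ha⟩ := hi
    rw [ha, ha]
  have hact : ∀ i ∈ A, (∀ t, x t i = t) ∨ (∀ t, x t i = Fin.rev t) := by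
    intro i hi
    simp only [hA, mem_filter, mem_univ, true_and] at hi
    rcases hx i with h | h
    · exact absurd h hi
    · exact h
  set J : Finset (Fin d) := A.filter fun i => ∀ t, x t i = Fin.rev t with hJ
  have hK : 0 < A.card := card_pos.2 ⟨i₀, by simpa [hA] using hi₀⟩
  have hKd : A.card ≤ d := by simpa using card_le_univ A
  have hclsA : ∀ t, ∀ i ∈ A, cls (x t i) = cls t := by
    intro t i hi
    rcases hact i hi with h | h
    · rw [h]
    · rw [h, cls_rev]
  -- counts of classes
  have hcnt : ∀ t u, cnt (x t) u =
      (Aᶜ.filter fun i => cls (x ⟨0, by omega⟩ i) = u).card + if cls t = u then A.card else 0 := by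
    intro t u
    rw [cnt, card_split (fun v => cls v = u) A (x t)]
    congr 1
    · congr 1
      apply filter_congr
      intro i hi
      rw [hpas i (by simpa using hi) t ⟨0, by omega⟩]
    · split_ifs with h
      · rw [filter_true_of_mem]
        intro i hi
        rw [hclsA t i hi, h]
      · rw [filter_false_of_mem, card_empty]
        intro i hi
        rw [hclsA t i hi]
        exact h
  set hp : ℕ := (Aᶜ.filter fun i => n - n / 2 ≤ (x ⟨0, by omega⟩ i).1).card with hhp
  have hsplit : ∀ t, high (x t) = hp + (A.filter fun i => n - n / 2 ≤ (x t i).1).card := by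
    intro t
    rw [high, card_split (fun v => n - n / 2 ≤ v.1) A (x t)]
    congr 1
    rw [hhp]
    congr 1
    apply filter_congr
    intro i hi
    rw [hpas i (by simpa using hi) t ⟨0, by omega⟩]
  -- points below the centre
  have hlow : ∀ t : Fin n, t.1 < n / 2 → high (x t) = hp + J.card := by
    intro t ht
    rw [hsplit t]
    congr 2
    apply filter_congr
    intro i hi
    rcases hact i hi with h | h
    · constructor
      · intro h1
        rw [h] at h1
        omega
      · intro h1
        have h2 := h ⟨0, by omega⟩
        have h3 := h1 ⟨0, by omega⟩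
        rw [h2] at h3
        have := congrArg Fin.val h3
        rw [Fin.val_rev] at this
        simp only at this
        omega
    · refine ⟨fun _ => h, fun _ => ?_⟩
      rw [h, Fin.val_rev]
      omega
  rcases Nat.even_or_odd A.card with hev | hodd
  · -- even number of active coordinates
    obtain ⟨m, hm⟩ := hev
    have hm0 : 0 < m := by omega
    have hDm : ¬ D ∣ m := fun h => by
      have := Nat.le_of_dvd hm0 h
      omega
    obtain ⟨j, hj, hne⟩ := hG
      (fun j => (Aᶜ.filter fun i => cls (x ⟨0, by omega⟩ i) = j + 1).card / 2) m hDm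
    refine ⟨x ⟨j + 1, by omega⟩, mem_image_of_mem _ (mem_univ _), x ⟨0, by omega⟩,
      mem_image_of_mem _ (mem_univ _), ?_⟩
    have h1 : high (x ⟨j + 1, by omega⟩) = high (x ⟨0, by omega⟩) := by
      rw [hlow _ (by show j + 1 < n / 2; omega), hlow _ (by show 0 < n / 2; omega)]
    have hc0 : cls (⟨0, by omega⟩ : Fin n) = 0 := by simp [cls]
    have hcj : cls (⟨j + 1, by omega⟩ : Fin n) = j + 1 := by
      simp only [cls]
      omega
    have h2 : (fun i => cnt (x ⟨0, by omega⟩) (i + 1) / 2) = fun i =>
        (Aᶜ.filter fun i' => cls (x ⟨0, by omega⟩ i') = i + 1).card / 2 := by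
      funext i
      rw [hcnt, hc0, if_neg (by omega), add_zero]
    have h3 : (fun i => cnt (x ⟨j + 1, by omega⟩) (i + 1) / 2) = Function.update
        (fun i => (Aᶜ.filter fun i' => cls (x ⟨0, by omega⟩ i') = i + 1).card / 2) j
        ((Aᶜ.filter fun i' => cls (x ⟨0, by omega⟩ i') = j + 1).card / 2 + m) := by
      funext i
      by_cases hij : i = j
      · subst hij
        rw [Function.update_self, hcnt, hcj, if_pos rfl, hm]
        omega
      · rw [Function.update_of_ne hij, hcnt, hcj, if_neg (by omega), add_zero]
    simp only [col, h1, h2, h3]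
    intro h
    exact hne (by simpa using h)
  · -- odd number of active coordinates
    refine ⟨x ⟨0, by omega⟩, mem_image_of_mem _ (mem_univ _), x ⟨n - 1, by omega⟩,
      mem_image_of_mem _ (mem_univ _), ?_⟩
    have h1 := hlow ⟨0, by omega⟩ (by show 0 < n / 2; omega)
    have h2 : high (x ⟨n - 1, by omega⟩) = hp + (A.card - J.card) := by
      rw [hsplit]
      congr 1
      have hsub : (A.filter fun i => n - n / 2 ≤ (x ⟨n - 1, by omega⟩ i).1) = A \ J := by
        ext i
        simp only [mem_filter, mem_sdiff, hJ, not_and]
        constructor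
        · rintro ⟨hi, h⟩
          refine ⟨hi, fun _ h3 => ?_⟩
          rw [h3, Fin.val_rev] at h
          simp only at h
          omega
        · rintro ⟨hi, h⟩
          refine ⟨hi, ?_⟩
          rcases hact i hi with h3 | h3
          · rw [h3]
            show n - n / 2 ≤ n - 1
            omega
          · exact absurd h3 (h hi)
      rw [hsub, card_sdiff_of_subset (filter_subset _ _)]
    have h3 : J.card ≤ A.card := card_le_card (filter_subset _ _)
    have h4 : (fun i => cnt (x ⟨n - 1, by omega⟩) (i + 1) / 2) = fun i =>
        cnt (x ⟨0, by omega⟩) (i + 1) / 2 := by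
      funext i
      rw [hcnt, hcnt]
      have : cls (⟨n - 1, by omega⟩ : Fin n) = cls (⟨0, by omega⟩ : Fin n) := by
        simp only [cls]
        omega
      rw [this]
    simp only [col, h1, h2, h4]
    intro h
    obtain ⟨m, hm⟩ := hodd
    have h5 : decide ((hp + J.card) % 2 = 1) = decide ((hp + (A.card - J.card)) % 2 = 1) := by
      simpa using h
    rw [decide_eq_decide] at h5
    omega

section flip

open Classical in
/-- Reflecting the first coordinate that is not central. -/
noncomputable def flip (x : Fin d → Fin n) : Fin d → Fin n :=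
  if h : ∃ i, cls (x i) < n / 2 then Function.update x (Fin.find _ h) (Fin.rev (x (Fin.find _ h)))
  else x

open Classical in
lemma flip_of (x : Fin d → Fin n) (h : ∃ i, cls (x i) < n / 2) :
    flip x = Function.update x (Fin.find _ h) (Fin.rev (x (Fin.find _ h))) := by
  unfold flip
  rw [dif_pos h]

lemma cls_flip (x : Fin d → Fin n) (i : Fin d) : cls (flip x i) = cls (x i) := by
  classical
  unfold flip
  split_ifs with h
  · by_cases hi : i = Fin.find _ h
    · rw [hi, Function.update_self, cls_rev]
    · rw [Function.update_of_ne hi]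
  · rfl

lemma flip_flip (x : Fin d → Fin n) : flip (flip x) = x := by
  classical
  have hp : (fun i => cls (flip x i) < n / 2) = fun i => cls (x i) < n / 2 := by
    funext i
    rw [cls_flip]
  by_cases h : ∃ i, cls (x i) < n / 2
  · have h' : ∃ i, cls (flip x i) < n / 2 := by
      obtain ⟨i, hi⟩ := h
      exact ⟨i, by rwa [cls_flip]⟩
    have hf : Fin.find _ h' = Fin.find _ h := by
      congr 1
    have h1 := flip_of x h
    rw [flip_of (flip x) h', hf]
    funext i
    by_cases hi : i = Fin.find _ h
    · rw [hi, Function.update_self, h1, Function.update_self, Fin.rev_rev]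
    · rw [Function.update_of_ne hi, h1, Function.update_of_ne hi]
  · have h1 : flip x = x := by
      unfold flip
      rw [dif_neg h]
    rw [h1, h1]

lemma col_flip (G : (ℕ → ℕ) → Bool) (x : Fin d → Fin n) (h : ∃ i, cls (x i) < n / 2) :
    col G (flip x) = !(col G x) := by
  classical
  have hc : ∀ u, cnt (flip x) u = cnt x u := by
    intro u
    unfold cnt
    simp only [cls_flip]
  have h1 := flip_of x h
  have hcl : cls (x (Fin.find _ h)) < n / 2 := Fin.find_spec h
  generalize Fin.find _ h = i₀ at h1 hcl
  have hs : ∀ y : Fin d → Fin n, high y = (if n - n / 2 ≤ (y i₀).1 then 1 else 0) +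
      ∑ i ∈ univ.erase i₀, if n - n / 2 ≤ (y i).1 then 1 else 0 := by
    intro y
    unfold high
    rw [card_filter, add_sum_erase _ (fun i => if n - n / 2 ≤ (y i).1 then 1 else 0)
      (mem_univ i₀)]
  have h2 : ∑ i ∈ univ.erase i₀, (if n - n / 2 ≤ (flip x i).1 then 1 else 0) =
      ∑ i ∈ univ.erase i₀, if n - n / 2 ≤ (x i).1 then 1 else 0 := by
    apply sum_congr rfl
    intro i hi
    rw [h1, Function.update_of_ne (mem_erase.1 hi).1]
  have h3 : (flip x i₀).1 = n - 1 - (x i₀).1 := by
    rw [h1, Function.update_self, Fin.val_rev]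
    omega
  have h4 := (x i₀).2
  unfold cls at hcl
  have h5 := hs (flip x)
  have h6 := hs x
  rw [h2, h3] at h5
  unfold col
  simp only [hc]
  have h7 : decide (high (flip x) % 2 = 1) = !(decide (high x % 2 = 1)) := by
    rw [← decide_not, decide_eq_decide]
    split_ifs at h5 h6 <;> omega
  rw [h7, Bool.not_xor]

end flip

/-- Half of the points have each colour. -/
lemma col_half (G : (ℕ → ℕ) → Bool) (b : Bool) :
    (univ.filter fun x : Fin d → Fin n => col G x = b).card ≤
      (univ.filter fun x : Fin d → Fin n => col G x = !b).card + 1 := by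
  classical
  have h1 : (univ.filter fun x : Fin d → Fin n => col G x = b).card =
      (univ.filter fun x : Fin d → Fin n => col G x = b ∧ ∃ i, cls (x i) < n / 2).card +
      (univ.filter fun x : Fin d → Fin n => col G x = b ∧ ¬ ∃ i, cls (x i) < n / 2).card := by
    rw [← card_union_of_disjoint]
    · congr 1
      ext x
      simp only [mem_filter, mem_univ, true_and, mem_union]
      tauto
    · rw [disjoint_left]
      intro x hx hx'
      simp only [mem_filter, mem_univ, true_and] at hx hx'
      exact hx'.2 hx.2
  have h2 : (univ.filter fun x : Fin d → Fin n =>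
      col G x = b ∧ ¬ ∃ i, cls (x i) < n / 2).card ≤ 1 := by
    rw [card_le_one]
    intro x hx y hy
    simp only [mem_filter, mem_univ, true_and, not_exists, not_lt] at hx hy
    funext i
    apply Fin.ext
    have := hx.2 i
    have := hy.2 i
    have := (x i).2
    have := (y i).2
    unfold cls at *
    omega
  have h3 : (univ.filter fun x : Fin d → Fin n =>
      col G x = b ∧ ∃ i, cls (x i) < n / 2).card ≤
      (univ.filter fun x : Fin d → Fin n => col G x = !b).card := by
    apply card_le_card_of_injOn flip
    · intro x hx
      simp only [coe_filter, mem_univ, true_and, Set.mem_ofPred_eq] at hx ⊢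
      rw [col_flip G x hx.2, hx.1]
    · intro x _ y _ h
      have := congrArg flip h
      rwa [flip_flip, flip_flip] at this
  omega

/-- Proper halving colourings from colourings of tuples. -/
theorem drawing_of_good {n d s D : ℕ} (hG : Good s D) (hs : s < n / 2) (hd : d < 2 * D) :
    ∃ c : (Fin d → Fin n) → Bool, IsDrawing n d c := by
  obtain ⟨G, hG⟩ := hG
  refine ⟨col G, ⟨by simpa using col_half G true, by simpa using col_half G false⟩, ?_⟩
  intro l hl b
  obtain ⟨y, hy, z, hz, hne⟩ := col_line hG hs hd hl
  by_contra hcon
  push Not at hcon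
  exact hne ((hcon y hy).trans (hcon z hz).symm)

end HJL
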