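import Mathlib
import Pool.Agent.HJL.Good

set_option autoImplicit false

/-!
Two colourings found by computer: the quadratic residues modulo `503` and `1747`, and weights
for which increasing a suitable entry always changes the colour.
-/

namespace HJL

/-- The quadratic residues modulo `503`, as a bit mask. -/
def mask503 : ℕ :=
  0x421580736c4156a4b28a1640777399d25da0dc59d123c31503a7f6e1a93c7b21c36a78901a3f573c3b7465c4fa45b4663111fd97aeb2da957dc931fe57bde

lemma good_503 : Good 5 503 :=
  good_of_chk (N := mask503) (w := [1, 11, 12, 170, 345]) (by norm_num) (by decide +kernel)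
    (by decide +kernel)

/-- The quadratic residues modulo `1747`, as a bit mask. -/
def mask1747 : ℕ :=
  0x359c281aa62fbc7327d3b745305a95b4f6905db465858f98f1fed9662988359e018378fb9c1d75cf878d7f9c2a112c6e44ac5452093dc282b3392e6ea5d82852fae83ef0c03b1534281ba84d84cc0f152a807a0dd155281bf337f9ace21b8216decb335bc9db8cb7af2db1081ba27ef724b0a12ce246c25332c8497be27b8ca60133027eb55744fa1feab570fccde4dea27ebd35723fcf083e8a0b5ebe45a898b6332bebc436fb5d5cadd89cb77abc6014e1e0c5147c620e13e7f8653ee6b99648070e60e5e59d245f690d256a5f35d12341b31c20b9aa7ebc652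

lemma good_1747 : Good 6 1747 :=
  good_of_chk (N := mask1747) (w := [1, 1746, 12, 1735, 826, 921]) (by norm_num)
    (by decide +kernel) (by decide +kernel)

end HJL
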